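import Pool.Agent.W772.FA.Defs

set_option autoImplicit false

namespace Pool.Agent.W646.FA

open MeasureTheory Set Metric Filter Complex Pool.Agent.W772.FA
open Pool.Agent.H744R2.Falc (A4b_e A4b_Phi A4b_g A4b_norm_e A4b_e_cont A4b_e_conj A4b_e_mul)
open scoped ENNReal Topology NNReal

/-- the factor `β_i` -/
noncomputable def bet {d : ℕ} (J : Finset (Fin d)) (u v : ℝ) (i : Fin d) : ℂ :=
  if i ∈ J then 1 - I * v else 1 - I * u

theorem bet_re {d : ℕ} (J : Finset (Fin d)) (u v : ℝ) (i : Fin d) : (bet J u v i).re = 1 := by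
  unfold bet
  split_ifs <;> simp

theorem bet_ne {d : ℕ} (J : Finset (Fin d)) (u v : ℝ) (i : Fin d) : bet J u v i ≠ 0 := by
  intro h
  have := bet_re J u v i
  rw [h] at this
  simp at this

theorem inv_bet_re {d : ℕ} (J : Finset (Fin d)) (u v : ℝ) (i : Fin d) :
    0 < (1 / (4 * bet J u v i)).re := by
  rw [one_div, Complex.inv_re]
  refine div_pos ?_ (Complex.normSq_pos.2 (mul_ne_zero (by norm_num) (bet_ne J u v i)))
  have : (4 * bet J u v i).re = 4 * (bet J u v i).re := by
    rw [show (4 : ℂ) = ((4 : ℝ) : ℂ) by norm_num, Complex.re_ofReal_mul]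
  rw [this, bet_re]
  norm_num

/-- the product of the prefactors -/
noncomputable def pre {d : ℕ} (J : Finset (Fin d)) (u v : ℝ) : ℂ :=
  ∏ i, ((((4 * Real.pi : ℝ) : ℂ) * bet J u v i) ^ (1 / 2 : ℂ))⁻¹

theorem blk_mul {d : ℕ} (J : Finset (Fin d)) (u v : ℝ) (ζ : E d) :
    blk Jᶜ.card u (qa J ζ) * blk J.card v (qb J ζ) =
      pre J u v * cexp (-∑ i, 1 / (4 * bet J u v i) * (ζ i : ℂ) ^ 2) := by
  have h1 : pre J u v = ((((4 * Real.pi : ℝ) : ℂ) * (1 - I * u)) ^ (1 / 2 : ℂ))⁻¹ ^ Jᶜ.card *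
      ((((4 * Real.pi : ℝ) : ℂ) * (1 - I * v)) ^ (1 / 2 : ℂ))⁻¹ ^ J.card := by
    unfold pre
    rw [← Finset.prod_compl_mul_prod J]
    congr 1
    · rw [← Finset.prod_const]
      refine Finset.prod_congr rfl fun i hi => ?_
      have hi' : i ∉ J := Finset.mem_compl.1 hi
      simp only [bet, hi', if_false]
    · rw [← Finset.prod_const]
      refine Finset.prod_congr rfl fun i hi => ?_
      simp only [bet, hi, if_true]
  have h2 : ∑ i, 1 / (4 * bet J u v i) * (ζ i : ℂ) ^ 2 =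
      (qa J ζ : ℂ) / (4 * (1 - I * u)) + (qb J ζ : ℂ) / (4 * (1 - I * v)) := by
    rw [← Finset.sum_compl_add_sum J]
    unfold qa qb
    push_cast
    rw [Finset.sum_div, Finset.sum_div]
    congr 1
    · refine Finset.sum_congr rfl fun i hi => ?_
      have hi' : i ∉ J := Finset.mem_compl.1 hi
      simp only [bet, hi', if_false]
      ring
    · refine Finset.sum_congr rfl fun i hi => ?_
      simp only [bet, hi, if_true]
      ring
  rw [h1, h2, neg_add, Complex.exp_add]
  unfold blk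
  ring

theorem ker_eq {d : ℕ} (J : Finset (Fin d)) (u v : ℝ) (z : E d) :
    Pool.Agent.W772.FA.ker J u v z = cexp (-∑ i, bet J u v i * (z i : ℂ) ^ 2) := by
  unfold Pool.Agent.W772.FA.ker
  congr 1
  rw [← Finset.sum_compl_add_sum J]
  unfold qa qb
  push_cast
  rw [Finset.mul_sum, Finset.mul_sum, neg_add, sub_eq_add_neg]
  congr 1
  · congr 1
    refine Finset.sum_congr rfl fun i hi => ?_
    have hi' : i ∉ J := Finset.mem_compl.1 hi
    simp only [bet, hi', if_false]
  · congr 1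
    refine Finset.sum_congr rfl fun i hi => ?_
    simp only [bet, hi, if_true]

theorem A4b_e_eq {d : ℕ} (z ζ : E d) :
    A4b_e z ζ = cexp (∑ i, (-(I * (z i : ℂ))) * (ζ i : ℂ)) := by
  unfold A4b_e
  congr 1
  rw [PiLp.inner_apply]
  push_cast
  rw [Finset.mul_sum, ← Finset.sum_neg_distrib]
  refine Finset.sum_congr rfl fun i _ => ?_
  simp
  ring

/-- the integrand in coordinates -/
theorem integrand_eq {d : ℕ} (J : Finset (Fin d)) (u v : ℝ) (z ζ : E d) :
    blk Jᶜ.card u (qa J ζ) * blk J.card v (qb J ζ) * A4b_e z ζ =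
      pre J u v * cexp (-∑ i, 1 / (4 * bet J u v i) * (ζ i : ℂ) ^ 2 +
        ∑ i, (-(I * (z i : ℂ))) * (ζ i : ℂ)) := by
  rw [blk_mul, A4b_e_eq, Complex.exp_add, mul_assoc]

theorem integrable_E {d : ℕ} (J : Finset (Fin d)) (u v : ℝ) (c : Fin d → ℂ) :
    Integrable (fun ζ : E d => cexp (-∑ i, 1 / (4 * bet J u v i) * (ζ i : ℂ) ^ 2 +
        ∑ i, c i * (ζ i : ℂ))) := by
  have h := GaussianFourier.integrable_cexp_neg_sum_mul_add (inv_bet_re J u v) c
  exact ((PiLp.volume_preserving_ofLp (Fin d)).integrable_comp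
    h.aestronglyMeasurable).2 h

theorem integral_E {d : ℕ} (J : Finset (Fin d)) (u v : ℝ) (c : Fin d → ℂ) :
    ∫ ζ : E d, cexp (-∑ i, 1 / (4 * bet J u v i) * (ζ i : ℂ) ^ 2 +
        ∑ i, c i * (ζ i : ℂ)) =
      ∏ i, (Real.pi / (1 / (4 * bet J u v i))) ^ (1 / 2 : ℂ) *
        cexp (c i ^ 2 / (4 * (1 / (4 * bet J u v i)))) := by
  rw [← GaussianFourier.integral_cexp_neg_sum_mul_add (inv_bet_re J u v) c]
  have h := (PiLp.volume_preserving_ofLp (Fin d)).integral_comp
    (MeasurableEquiv.toLp 2 (Fin d → ℝ)).symm.measurableEmbedding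
    (fun w : Fin d → ℝ => cexp (-∑ i, 1 / (4 * bet J u v i) * (w i : ℂ) ^ 2 +
        ∑ i, c i * (w i : ℂ)))
  exact h

theorem blk_integrable {d : ℕ} (J : Finset (Fin d)) (u v : ℝ) :
    Integrable (fun ζ : E d => blk Jᶜ.card u (qa J ζ) * blk J.card v (qb J ζ)) := by
  have h := (integrable_E J u v (fun _ => 0)).const_mul (pre J u v)
  refine h.congr (Filter.Eventually.of_forall fun ζ => ?_)
  simp only [zero_mul, Finset.sum_const_zero, add_zero]
  rw [blk_mul]

theorem ker_rep {d : ℕ} (J : Finset (Fin d)) (u v : ℝ) (z : E d) :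
    Pool.Agent.W772.FA.ker J u v z = ∫ ζ : E d, blk Jᶜ.card u (qa J ζ) * blk J.card v (qb J ζ) * A4b_e z ζ := by
  simp_rw [integrand_eq]
  rw [integral_const_mul, integral_E, ker_eq, pre, ← Finset.prod_mul_distrib, ← Finset.sum_neg_distrib,
    Complex.exp_sum]
  refine Finset.prod_congr rfl fun i _ => ?_
  have hb := bet_ne J u v i
  have e1 : (Real.pi : ℂ) / (1 / (4 * bet J u v i)) = ((4 * Real.pi : ℝ) : ℂ) * bet J u v i := by
    push_cast
    field_simp
  have e2 : (-(I * (z i : ℂ))) ^ 2 / (4 * (1 / (4 * bet J u v i))) = -(bet J u v i * (z i : ℂ) ^ 2) := by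
    have : (-(I * (z i : ℂ))) ^ 2 = -(z i : ℂ) ^ 2 := by
      rw [neg_sq, mul_pow, I_sq]; ring
    rw [this]
    field_simp
  have e3 : (((4 * Real.pi : ℝ) : ℂ) * bet J u v i) ^ (1 / 2 : ℂ) ≠ 0 := by
    rw [Ne, Complex.cpow_eq_zero_iff]
    rintro ⟨h, -⟩
    exact mul_ne_zero (by exact_mod_cast (by positivity : (4 * Real.pi : ℝ) ≠ 0)) hb h
  rw [e1, e2, ← mul_assoc, inv_mul_cancel₀ e3, one_mul]

theorem ft : S_FT := by
  intro d J μ hμ A f g hf hg u v
  refine ⟨blk_integrable J u v, ?_⟩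
  set B : E d → ℂ := fun ζ => blk Jᶜ.card u (qa J ζ) * blk J.card v (qb J ζ) with hB
  have hBi : Integrable B := blk_integrable J u v
  have hA0 : 0 ≤ A := (abs_nonneg _).trans (hf.2 0)
  -- the triple integrand
  set F : (E d × E d) → E d → ℂ := fun p ζ =>
    B ζ * (((f p.1 : ℂ) * A4b_e p.1 ζ) * (starRingEnd ℂ) ((g p.2 : ℂ) * A4b_e p.2 ζ)) with hF
  have hint : Integrable (Function.uncurry F) ((μ.prod μ).prod volume) := by
    have h1 : Integrable (fun q : (E d × E d) × E d => (A * A) * ‖B q.2‖)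
        ((μ.prod μ).prod volume) := Integrable.mul_prod (integrable_const (A * A)) hBi.norm
    refine h1.mono' ?_ (Filter.Eventually.of_forall fun q => ?_)
    · have m1 : AEStronglyMeasurable (fun q : (E d × E d) × E d => B q.2)
          ((μ.prod μ).prod volume) := hBi.1.comp_snd
      have c1 : Continuous (fun q : (E d × E d) × E d => A4b_e q.1.1 q.2) :=
        A4b_e_cont.comp (by fun_prop : Continuous fun q : (E d × E d) × E d => (q.1.1, q.2))
      have c2 : Continuous (fun q : (E d × E d) × E d => A4b_e q.1.2 q.2) :=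
        A4b_e_cont.comp (by fun_prop : Continuous fun q : (E d × E d) × E d => (q.1.2, q.2))
      have m2 : Measurable (fun q : (E d × E d) × E d => (f q.1.1 : ℂ) * A4b_e q.1.1 q.2) :=
        (Complex.measurable_ofReal.comp (hf.1.comp (measurable_fst.comp measurable_fst))).mul
          c1.measurable
      have m3 : Measurable (fun q : (E d × E d) × E d => (g q.1.2 : ℂ) * A4b_e q.1.2 q.2) :=
        (Complex.measurable_ofReal.comp (hg.1.comp (measurable_snd.comp measurable_fst))).mul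
          c2.measurable
      exact m1.mul (m2.mul (Complex.continuous_conj.measurable.comp m3)).aestronglyMeasurable
    · show ‖B q.2 * (((f q.1.1 : ℂ) * A4b_e q.1.1 q.2) *
        (starRingEnd ℂ) ((g q.1.2 : ℂ) * A4b_e q.1.2 q.2))‖ ≤ _
      have hn : ∀ a b c : ℂ, ‖a * (b * (starRingEnd ℂ) c)‖ = (‖b‖ * ‖c‖) * ‖a‖ := by
        intro a b c
        rw [norm_mul, norm_mul, RCLike.norm_conj]
        ring
      rw [hn, norm_mul (f q.1.1 : ℂ), norm_mul (g q.1.2 : ℂ), A4b_norm_e, A4b_norm_e,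
        mul_one, mul_one, Complex.norm_real, Complex.norm_real]
      exact mul_le_mul_of_nonneg_right (mul_le_mul (hf.2 _) (hg.2 _) (norm_nonneg _) hA0)
        (norm_nonneg _)
  have hswap := integral_integral_swap hint
  have hL : NN J μ f g u v = ∫ p, ∫ ζ, F p ζ ∂(volume) ∂(μ.prod μ) := by
    unfold NN
    refine integral_congr_ae (Filter.Eventually.of_forall fun p => ?_)
    simp only
    rw [ker_rep, ← integral_mul_const]
    refine integral_congr_ae (Filter.Eventually.of_forall fun ζ => ?_)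
    simp only [hF, hB]
    rw [map_mul, Complex.conj_ofReal, A4b_e_conj, sub_eq_add_neg, ← A4b_e_mul]
    push_cast
    ring
  rw [hL, hswap]
  refine integral_congr_ae (Filter.Eventually.of_forall fun ζ => ?_)
  simp only [hF]
  rw [integral_const_mul]
  congr 1
  rw [integral_prod_mul (fun x : E d => (f x : ℂ) * A4b_e x ζ)
    (fun y : E d => (starRingEnd ℂ) ((g y : ℂ) * A4b_e y ζ)), integral_conj]
  rfl

end Pool.Agent.W646.FA
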