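import Pool.Agent.W772.FA.Defs

set_option autoImplicit false

namespace Pool.Agent.W646.FA

open MeasureTheory Set Metric Filter Pool.Agent.W772.FA
open scoped ENNReal Topology NNReal

/-- the stretch as a linear map -/
noncomputable def stL {d : ℕ} (J : Finset (Fin d)) (lam : ℝ) : E d →ₗ[ℝ] E d where
  toFun := stretch J lam
  map_add' := by
    intro x y
    ext i
    by_cases h : i ∈ J <;> simp [stretch, h, mul_add]
  map_smul' := by
    intro c x
    ext i
    by_cases h : i ∈ J <;> simp [stretch, h]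
    ring

theorem stretch_mul {d : ℕ} (J : Finset (Fin d)) (a b : ℝ) (x : E d) :
    stretch J (a * b) x = stretch J a (stretch J b x) := by
  ext i
  by_cases h : i ∈ J <;> simp [stretch, h, mul_assoc]

theorem stretch_one {d : ℕ} (J : Finset (Fin d)) (x : E d) :
    stretch J 1 x = x := by
  ext i
  by_cases h : i ∈ J <;> simp [stretch, h]

/-- the stretch as a linear equivalence -/
noncomputable def stE {d : ℕ} (J : Finset (Fin d)) (lam : ℝ) (h : 0 < lam) : E d ≃ₗ[ℝ] E d :=
  LinearEquiv.ofLinear (stL J lam) (stL J lam⁻¹)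
    (by
      ext1 x
      show stretch J lam (stretch J lam⁻¹ x) = x
      rw [← stretch_mul, mul_inv_cancel₀ h.ne', stretch_one])
    (by
      ext1 x
      show stretch J lam⁻¹ (stretch J lam x) = x
      rw [← stretch_mul, inv_mul_cancel₀ h.ne', stretch_one])

theorem stretch_cont {d : ℕ} (J : Finset (Fin d)) (lam : ℝ) : Continuous (stretch (d := d) J lam) :=
  (stL J lam).continuous_of_finiteDimensional

theorem dimH_stretch {d : ℕ} (J : Finset (Fin d)) (lam : ℝ) (h : 0 < lam) (A : Set (E d)) :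
    dimH (stretch J lam '' A) = dimH A :=
  (stE J lam h).toContinuousLinearEquiv.dimH_image A

theorem fin : S_FIN := by
  intro hone d J hJ hJc A hA hd
  have hkey : ∀ n : ℤ, dimH {lam : ℝ | lam ∈ Icc ((2 : ℝ) ^ n) ((2 : ℝ) ^ (n + 1)) ∧
      volume (distanceSet (stretch J lam '' A)) = 0} ≤ (d : ℝ≥0∞) / 2 + 1 - dimH A := by
    intro n
    have h2 : (0 : ℝ) < (2 : ℝ) ^ n := by positivity
    have hcA : IsCompact (stretch J ((2 : ℝ) ^ n) '' A) := hA.image (stretch_cont J _)
    have hdA := dimH_stretch J _ h2 A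
    have h1 := hone d J hJ hJc _ hcA (by rw [hdA]; exact hd)
    rw [hdA] at h1
    refine le_trans ?_ h1
    have hLip : LipschitzWith (Real.toNNReal ((2 : ℝ) ^ n)) (fun x : ℝ => (2 : ℝ) ^ n * x) := by
      refine LipschitzWith.of_dist_le_mul fun x y => ?_
      rw [Real.dist_eq, Real.dist_eq, ← mul_sub, abs_mul, abs_of_pos h2,
        Real.coe_toNNReal _ h2.le]
    refine le_trans (dimH_mono ?_) (hLip.dimH_image_le _)
    rintro lam ⟨⟨hl1, hl2⟩, hl3⟩
    refine ⟨lam / (2 : ℝ) ^ n, ⟨⟨?_, ?_⟩, ?_⟩, ?_⟩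
    · rw [le_div_iff₀ h2]; linarith
    · rw [div_le_iff₀ h2]
      rw [zpow_add_one₀ (by norm_num)] at hl2
      linarith
    · rw [Set.image_image]
      simp_rw [← stretch_mul]
      rw [div_mul_cancel₀ _ h2.ne']
      exact hl3
    · show (2 : ℝ) ^ n * (lam / (2 : ℝ) ^ n) = lam
      field_simp
  have hall : dimH {lam : ℝ | 0 < lam ∧ volume (distanceSet (stretch J lam '' A)) = 0} ≤
      (d : ℝ≥0∞) / 2 + 1 - dimH A := by
    have hsub : {lam : ℝ | 0 < lam ∧ volume (distanceSet (stretch J lam '' A)) = 0} ⊆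
        ⋃ n : ℤ, {lam : ℝ | lam ∈ Icc ((2 : ℝ) ^ n) ((2 : ℝ) ^ (n + 1)) ∧
          volume (distanceSet (stretch J lam '' A)) = 0} := by
      rintro lam ⟨hl, hv⟩
      obtain ⟨n, hn1, hn2⟩ := exists_mem_Ico_zpow hl (by norm_num : (1 : ℝ) < 2)
      exact mem_iUnion.2 ⟨n, ⟨hn1, hn2.le⟩, hv⟩
    refine le_trans (dimH_mono hsub) ?_
    rw [dimH_iUnion]
    exact iSup_le hkey
  refine ⟨hall, ?_⟩
  have hlt : dimH {lam : ℝ | 0 < lam ∧ volume (distanceSet (stretch J lam '' A)) = 0} < 1 := by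
    refine lt_of_le_of_lt hall ?_
    have hdtop : (d : ℝ≥0∞) / 2 ≠ ⊤ := by
      exact ENNReal.div_ne_top (ENNReal.natCast_ne_top d) (by norm_num)
    rcases le_total ((d : ℝ≥0∞) / 2 + 1) (dimH A) with h | h
    · rw [tsub_eq_zero_of_le h]; exact one_pos
    · rw [ENNReal.sub_lt_iff_lt_left _ h]
      · exact ENNReal.add_lt_add_right (by simp) hd
      · exact ne_top_of_le_ne_top (by simp [hdtop]) h
  have hnull : volume {lam : ℝ | 0 < lam ∧ volume (distanceSet (stretch J lam '' A)) = 0} = 0 := by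
    have := hausdorffMeasure_of_dimH_lt (d := 1) (by simpa using hlt)
    rw [← hausdorffMeasure_real]
    simpa using this
  rw [ae_iff]
  refine measure_mono_null ?_ hnull
  intro lam hlam
  simp only [mem_setOf_eq, Classical.not_imp, not_lt, nonpos_iff_eq_zero] at hlam
  exact hlam

end Pool.Agent.W646.FA
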