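import Pool.Agent.W772.FA.Defs

set_option autoImplicit false

namespace Pool.Agent.W646.FA

open MeasureTheory Set Metric Filter Pool.Agent.W772.FA
open scoped ENNReal Topology NNReal

theorem dist_stretch_sq {d : ℕ} (J : Finset (Fin d)) (lam : ℝ) (z z' : E d) :
    dist (stretch J lam z) (stretch J lam z') ^ 2 = qa J (z - z') + lam ^ 2 * qb J (z - z') := by
  rw [EuclideanSpace.dist_eq, Real.sq_sqrt (Finset.sum_nonneg fun i _ => sq_nonneg _)]
  unfold qa qb
  rw [← Finset.sum_compl_add_sum J, Finset.mul_sum]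
  congr 1
  · refine Finset.sum_congr rfl fun i hi => ?_
    have hi' : i ∉ J := Finset.mem_compl.1 hi
    simp only [stretch, hi', if_false, Real.dist_eq, sq_abs, PiLp.sub_apply]
  · refine Finset.sum_congr rfl fun i hi => ?_
    simp only [stretch, hi, if_true, Real.dist_eq, sq_abs, PiLp.sub_apply]
    ring

theorem DK_eq {d : ℕ} (J : Finset (Fin d)) (A : Set (E d)) (lam : ℝ) :
    DK J A (lam ^ 2) = (fun x : ℝ => x ^ 2) '' distanceSet (stretch J lam '' A) := by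
  ext r
  constructor
  · rintro ⟨z, hz, z', hz', rfl⟩
    exact ⟨dist (stretch J lam z) (stretch J lam z'),
      ⟨_, mem_image_of_mem _ hz, _, mem_image_of_mem _ hz', rfl⟩, dist_stretch_sq J lam z z'⟩
  · rintro ⟨_, ⟨_, ⟨z, hz, rfl⟩, _, ⟨z', hz', rfl⟩, rfl⟩, rfl⟩
    exact ⟨z, hz, z', hz', dist_stretch_sq J lam z z'⟩

theorem volume_DK {d : ℕ} (J : Finset (Fin d)) (A : Set (E d)) (lam : ℝ)
    (h : volume (distanceSet (stretch J lam '' A)) = 0) : volume (DK J A (lam ^ 2)) = 0 := by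
  rw [DK_eq]
  exact addHaar_image_eq_zero_of_differentiableOn_of_addHaar_eq_zero volume
    (fun x _ => (differentiable_pow 2 x).differentiableWithinAt) h

theorem sqrt_lip : LipschitzOnWith 1 Real.sqrt (Icc (1 : ℝ) 4) := by
  refine LipschitzOnWith.of_dist_le_mul ?_
  rintro a ⟨ha, -⟩ b ⟨hb, -⟩
  rw [Real.dist_eq, Real.dist_eq, NNReal.coe_one, one_mul]
  have h1 : 1 ≤ Real.sqrt a := by rw [Real.one_le_sqrt]; exact ha
  have h2 : 1 ≤ Real.sqrt b := by rw [Real.one_le_sqrt]; exact hb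
  have h3 : a - b = (Real.sqrt a - Real.sqrt b) * (Real.sqrt a + Real.sqrt b) := by
    have e1 := Real.mul_self_sqrt (by linarith : (0 : ℝ) ≤ a)
    have e2 := Real.mul_self_sqrt (by linarith : (0 : ℝ) ≤ b)
    linear_combination -e1 + e2
  rw [h3, abs_mul, abs_of_pos (by linarith : (0 : ℝ) < Real.sqrt a + Real.sqrt b)]
  have h4 := abs_nonneg (Real.sqrt a - Real.sqrt b)
  nlinarith

theorem one_step (hME : S_ME) (hDIM : S_DIM) (hABS : S_ABS) (hDEG : S_DEG) (d : ℕ)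
    (J : Finset (Fin d)) (hJ : J.Nonempty) (hJc : Jᶜ.Nonempty) (A : Set (E d)) (hA : IsCompact A)
    (s ε : ℝ) (hs : (d : ℝ) / 2 < s) (hsA : ENNReal.ofReal s < dimH A) (hε : 0 < ε) :
    dimH {lam ∈ Icc (1 : ℝ) 2 | volume (distanceSet (stretch J lam '' A)) = 0} ≤
      ENNReal.ofReal (max 0 (1 + (d : ℝ) / 2 - s) + ε) := by
  have hd0 : (0 : ℝ) ≤ (d : ℝ) / 2 := by positivity
  have hs0 : 0 ≤ s := by linarith
  obtain ⟨μ, hμ, hμA, C₀, hC₀, hFr⟩ :=
    Pool.Agent.H744R2.Falc.frostman_dimH d A hA s hs0 hsA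
  have hFrM : FrM μ C₀ s := hFr
  rcases hDEG d J hJ hJc A hA μ hμ hμA C₀ s hC₀ hs hFrM with hcase | hcase
  · obtain ⟨c, B₁, B₂, hc, hB₁, hB₂, hb₁, hb₂, hm₁, hm₂, hsep⟩ := hcase
    obtain ⟨ρ₁, hρ₁⟩ := hb₁.exists_norm_le
    obtain ⟨ρ₂, hρ₂⟩ := hb₂.exists_norm_le
    set ρ := max ρ₁ ρ₂ with hρ
    have hf : BM 1 (B₁.indicator (1 : E d → ℝ)) := by
      refine ⟨measurable_one.indicator hB₁, fun z => ?_⟩
      by_cases hz : z ∈ B₁ <;> simp [hz]
    have hg : BM 1 (B₂.indicator (1 : E d → ℝ)) := by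
      refine ⟨measurable_one.indicator hB₂, fun z => ?_⟩
      by_cases hz : z ∈ B₂ <;> simp [hz]
    have hne : ∀ (B : Set (E d)) (z : E d), B.indicator (1 : E d → ℝ) z ≠ 0 → z ∈ B := by
      intro B z hz
      by_contra hn
      exact hz (indicator_of_notMem hn _)
    have hSep : Sep J c (B₁.indicator (1 : E d → ℝ)) (B₂.indicator (1 : E d → ℝ)) := by
      intro z z' hz hz'
      exact hsep z (hne _ _ hz) z' (hne _ _ hz')
    set x : ℝ := 1 + (d : ℝ) / 2 - s with hx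
    set γ : ℝ := max 0 x + ε - x with hγ
    have hγ0 : 0 < γ := by
      have := le_max_right 0 x
      rw [hγ]; linarith
    have hγx : γ + x = max 0 x + ε := by rw [hγ]; ring
    have hγx0 : 0 ≤ γ + x := by
      rw [hγx]
      have := le_max_left 0 x
      linarith
    have hdim := hDIM hME d J μ hμ C₀ s c 1 ρ hC₀ hs0 hc zero_le_one hFrM _ _ hf hg hSep
      (fun z hz => (hρ₁ z (hne _ _ hz)).trans (le_max_left _ _))
      (fun z hz => (hρ₂ z (hne _ _ hz)).trans (le_max_right _ _)) γ hγ0 hγx0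
    rw [hγx] at hdim
    refine le_trans ?_ hdim
    refine le_trans (dimH_mono ?_) (LipschitzOnWith.dimH_image_le (sqrt_lip.mono ?_))
    · rintro lam ⟨⟨hl1, hl2⟩, hl3⟩
      refine ⟨lam ^ 2, ⟨⟨by nlinarith, by nlinarith⟩, ?_⟩, Real.sqrt_sq (by linarith)⟩
      by_contra hnf
      rw [not_frequently] at hnf
      have hpos := hABS d J μ hμ A hA hμA B₁ B₂ hB₁ hB₂ hm₁ hm₂ (lam ^ 2) γ hγ0
        (hnf.mono fun j hj => not_lt.1 hj)
      exact hpos.ne' (volume_DK J A lam hl3)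
    · intro κ hκ
      exact hκ.1
  · have hempty : {lam ∈ Icc (1 : ℝ) 2 | volume (distanceSet (stretch J lam '' A)) = 0} = ∅ := by
      rw [eq_empty_iff_forall_notMem]
      rintro lam ⟨⟨hl1, -⟩, hl3⟩
      exact (hcase lam (by linarith)).ne' hl3
    rw [hempty, dimH_empty]
    exact zero_le

theorem one : S_ME → S_DIM → S_ABS → S_DEG → S_ONE := by
  intro hME hDIM hABS hDEG d J hJ hJc A hA hd
  have htop : dimH A ≠ ⊤ := by
    refine ne_top_of_le_ne_top ?_ (dimH_mono (subset_univ A))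
    rw [Real.dimH_univ_eq_finrank]
    exact ENNReal.natCast_ne_top _
  set D : ℝ := (dimH A).toReal with hD
  have hDA : ENNReal.ofReal D = dimH A := ENNReal.ofReal_toReal htop
  have hd2 : (d : ℝ≥0∞) / 2 = ENNReal.ofReal ((d : ℝ) / 2) := by
    rw [ENNReal.ofReal_div_of_pos (by norm_num), ENNReal.ofReal_natCast]
    norm_num
  have hdD : (d : ℝ) / 2 < D := by
    rw [hd2, ← hDA] at hd
    exact (ENNReal.ofReal_lt_ofReal_iff_of_nonneg (by positivity)).1 hd
  have hrhs : (d : ℝ≥0∞) / 2 + 1 - dimH A = ENNReal.ofReal (max 0 (1 + (d : ℝ) / 2 - D)) := by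
    rw [ENNReal.ofReal_max, ENNReal.ofReal_zero, max_eq_right zero_le,
      ENNReal.ofReal_sub _ (ENNReal.toReal_nonneg), hDA,
      ENNReal.ofReal_add zero_le_one (by positivity), ENNReal.ofReal_one, ← hd2, add_comm]
  rw [hrhs]
  refine ENNReal.le_of_forall_pos_le_add fun ε hε _ => ?_
  have hε' : (0 : ℝ) < ε := by exact_mod_cast hε
  set s : ℝ := max (((d : ℝ) / 2 + D) / 2) (D - ε / 2) with hs
  have hs1 : (d : ℝ) / 2 < s := lt_of_lt_of_le (by linarith) (le_max_left _ _)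
  have hs2 : s < D := max_lt (by linarith) (by linarith)
  have hs3 : D - ε / 2 ≤ s := le_max_right _ _
  have hs0 : 0 ≤ s := by
    have : (0 : ℝ) ≤ (d : ℝ) / 2 := by positivity
    linarith
  have hD0 : 0 < D := by linarith
  have h := one_step hME hDIM hABS hDEG d J hJ hJc A hA s (ε / 2) hs1
    (by rw [← hDA]; exact (ENNReal.ofReal_lt_ofReal_iff hD0).2 hs2) (by linarith)
  refine h.trans ?_
  have e1 : (ε : ℝ≥0∞) = ENNReal.ofReal (ε : ℝ) := (ENNReal.ofReal_coe_nnreal).symm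
  rw [e1, ← ENNReal.ofReal_add (le_max_left _ _) hε'.le]
  refine ENNReal.ofReal_le_ofReal ?_
  have h1 : max 0 (1 + (d : ℝ) / 2 - s) ≤ max 0 (1 + (d : ℝ) / 2 - D) + ε / 2 := by
    refine max_le ?_ ?_
    · have := le_max_left 0 (1 + (d : ℝ) / 2 - D)
      linarith
    · have := le_max_right 0 (1 + (d : ℝ) / 2 - D)
      linarith
  linarith

end Pool.Agent.W646.FA
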